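import Pool.Agent.Lib.H51K.K2
import Pool.Agent.Lib.H51K.S2

/-!
# H73K/K4: four slopes `0, 1, 2, 3` give the sums-differences exponent `29/16`
-/

namespace H73K

open Finset H51K

section box
variable {Ω : Type} [Fintype Ω] {p : Ω → ℝ} {x t : Ω → ℚ}

theorem k4_v1 (hp : IsPr p) (s r : ℚ) :
    H (VV p x t s) (fun ω => yy x t r ω.1) = ph p x t r :=
  H_glue_fst hp hp (fun _ => rfl) (yy x t r)

theorem k4_v2 (hp : IsPr p) (s r : ℚ) :
    H (VV p x t s) (fun ω => yy x t r ω.2) = ph p x t r :=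
  H_glue_snd hp hp (fun _ => rfl) (yy x t r)

/-- The full variable of `V`. -/
def fullV (x t : Ω → ℚ) : Ω × Ω → (ℚ × ℚ) × (ℚ × ℚ) := fun ω => (fl x t ω.1, fl x t ω.2)

/-- The weighted inequality of Katz and Tao for the slopes `1, 2, 3`. -/
theorem k4_three (hp : IsPr p) (hd : Det p t x) :
    hh p x t ≤ 2 / 3 * ph p x t 1 + 1 / 2 * ph p x t 2 + 2 / 3 * ph p x t 3 := by
  have hV := VV_isPr (x := x) (t := t) hp 2
  have e0 : H (VV p x t 2) (fullV x t) = 2 * hh p x t - ph p x t 2 := H_VV hp 2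
  -- `t₁ - t₂`
  have e1 := H_submod' hV (fun ω => (yy x t 1 ω.1, yy x t 1 ω.2))
    (fun ω => (yy x t 3 ω.1, yy x t 3 ω.2)) (fun ω => t ω.1 - t ω.2) (fullV x t)
    (by
      intro c d hc hd' h
      obtain ⟨-, -, c3⟩ := VV_supp hc
      obtain ⟨-, -, d3⟩ := VV_supp hd'
      simp only [Prod.mk.injEq, yy] at *
      linarith)
    (by
      intro c d hc hd' h
      obtain ⟨-, -, c3⟩ := VV_supp hc
      obtain ⟨-, -, d3⟩ := VV_supp hd'
      simp only [Prod.mk.injEq, yy] at *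
      linarith)
    (by
      intro c d hc hd' h
      simp only [Prod.mk.injEq, yy, fl, fullV] at *
      obtain ⟨⟨a1, a2⟩, a3, a4⟩ := h
      refine ⟨⟨?_, ?_⟩, ?_, ?_⟩ <;> linarith)
  -- `t₁ + t₂`
  have e2 := H_submod' hV (fun ω => (yy x t 1 ω.1, yy x t 3 ω.2))
    (fun ω => (yy x t 3 ω.1, yy x t 1 ω.2)) (fun ω => t ω.1 + t ω.2) (fullV x t)
    (by
      intro c d hc hd' h
      obtain ⟨-, -, c3⟩ := VV_supp hc
      obtain ⟨-, -, d3⟩ := VV_supp hd'
      simp only [Prod.mk.injEq, yy] at *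
      linarith)
    (by
      intro c d hc hd' h
      obtain ⟨-, -, c3⟩ := VV_supp hc
      obtain ⟨-, -, d3⟩ := VV_supp hd'
      simp only [Prod.mk.injEq, yy] at *
      linarith)
    (by
      intro c d hc hd' h
      simp only [Prod.mk.injEq, yy, fl, fullV] at *
      obtain ⟨⟨a1, a2⟩, a3, a4⟩ := h
      refine ⟨⟨?_, ?_⟩, ?_, ?_⟩ <;> linarith)
  have e3 := H_le_add hV (fun ω => t ω.1 - t ω.2) (fun ω => t ω.1 + t ω.2) (fullV x t)
    (by
      intro c d hc hd' h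
      obtain ⟨c1, c2, -⟩ := VV_supp hc
      obtain ⟨d1, d2, -⟩ := VV_supp hd'
      simp only [Prod.mk.injEq, fl, fullV] at *
      have t1 : t c.1 = t d.1 := by linarith
      have t2 : t c.2 = t d.2 := by linarith
      exact ⟨⟨hd _ _ c1 d1 t1, t1⟩, hd _ _ c2 d2 t2, t2⟩)
  have e4 := H_pair_le hV (fun ω => yy x t 1 ω.1) (fun ω => yy x t 1 ω.2)
  have e5 := H_pair_le hV (fun ω => yy x t 3 ω.1) (fun ω => yy x t 3 ω.2)
  have e6 := H_pair_le hV (fun ω => yy x t 1 ω.1) (fun ω => yy x t 3 ω.2)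
  have e7 := H_pair_le hV (fun ω => yy x t 3 ω.1) (fun ω => yy x t 1 ω.2)
  simp only [k4_v1 hp, k4_v2 hp] at e4 e5 e6 e7
  linarith

end box

/-- The same as a box. -/
theorem k4_box : BoxI 0 (11 / 6) 0 ![1, 2, 3] ![4 / 11, 3 / 11, 4 / 11] := by
  intro Ω _ p x t hp hd
  have h := k4_three hp hd
  rw [Fin.sum_univ_three]
  simp only [Matrix.cons_val_zero, Matrix.cons_val_one, Matrix.cons_val]
  have h1 : hh p x t = H p (fun ω => (x ω, t ω)) := rfl
  have h2 : ph p x t 1 = H p (fun ω => x ω + 1 * t ω) := rfl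
  have h3 : ph p x t 2 = H p (fun ω => x ω + 2 * t ω) := rfl
  have h4 : ph p x t 3 = H p (fun ω => x ω + 3 * t ω) := rfl
  rw [h1, h2, h3, h4] at h
  linarith

section main
variable {Ω : Type} [Fintype Ω] {p : Ω → ℝ} {x t : Ω → ℚ}

/-- `w = t₁ - t₂` on `V_0`. -/
def k4w (t : Ω → ℚ) : Ω × Ω → ℚ := fun ω => t ω.1 - t ω.2

/-- A member of the box over `w`. -/
theorem k4_mem (hp : IsPr p) {r : ℚ} (hr : r ≠ 0) :
    H (VV p x t 0) (fun ω => (x ω.1 + r * t ω.1, k4w t ω)) ≤ 2 * ph p x t r := by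
  have hV := VV_isPr (x := x) (t := t) hp 0
  have h1 := H_le_add hV (fun ω => yy x t r ω.1) (fun ω => yy x t r ω.2)
    (fun ω => (x ω.1 + r * t ω.1, k4w t ω))
    (by
      intro c d hc hd' h
      obtain ⟨-, -, c3⟩ := VV_supp hc
      obtain ⟨-, -, d3⟩ := VV_supp hd'
      simp only [Prod.mk.injEq, yy, k4w] at *
      obtain ⟨h1, h2⟩ := h
      refine ⟨h1, mul_left_cancel₀ hr ?_⟩
      linear_combination h1 - h2 - c3 + d3)
  rw [k4_v1 hp, k4_v2 hp] at h1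
  linarith

/-- First part: `v - c ≤ (11/6) (2 M - c)`. -/
theorem k4_a (hp : IsPr p) (hd : Det p t x) {M : ℝ} (h1 : ph p x t 1 ≤ M)
    (h2 : ph p x t 2 ≤ M) (h3 : ph p x t 3 ≤ M) :
    2 * hh p x t - ph p x t 0 - H (VV p x t 0) (k4w t)
      ≤ 11 / 6 * (2 * M - H (VV p x t 0) (k4w t)) := by
  have hV := VV_isPr (x := x) (t := t) hp 0
  have hb := k4_box.cond hV (fun ω => x ω.1) (fun ω => t ω.1) (k4w t) (by
    intro c d hc hd' h
    obtain ⟨c1, -, -⟩ := VV_supp hc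
    obtain ⟨d1, -, -⟩ := VV_supp hd'
    exact hd _ _ c1 d1 (congrArg Prod.fst h))
  have e0 : H (VV p x t 0) (fullV x t) = 2 * hh p x t - ph p x t 0 := H_VV hp 0
  have e1 := H_le_of_det hV (f := fun ω => ((x ω.1, t ω.1), k4w t ω)) (g := fullV x t)
    (by
      intro c d hc hd' h
      obtain ⟨-, -, c3⟩ := VV_supp hc
      obtain ⟨-, -, d3⟩ := VV_supp hd'
      simp only [Prod.mk.injEq, yy, k4w, fullV, fl] at *
      obtain ⟨⟨a1, a2⟩, a3⟩ := h
      refine ⟨⟨?_, ?_⟩, ?_, ?_⟩ <;> linarith)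
  have m1 := k4_mem (x := x) (t := t) hp (r := 1) (by norm_num)
  have m2 := k4_mem (x := x) (t := t) hp (r := 2) (by norm_num)
  have m3 := k4_mem (x := x) (t := t) hp (r := 3) (by norm_num)
  rw [Fin.sum_univ_three] at hb
  simp only [Matrix.cons_val_zero, Matrix.cons_val_one, Matrix.cons_val] at hb
  linarith

/-- Second part: `c ≥ 2 v - 4 M`. -/
theorem k4_b (hp : IsPr p) (hd : Det p t x) {M : ℝ} (h0 : ph p x t 0 ≤ M)
    (h1 : ph p x t 1 ≤ M) (h2 : ph p x t 2 ≤ M) :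
    2 * (2 * hh p x t - ph p x t 0) - 4 * M ≤ H (VV p x t 0) (k4w t) := by
  have hV := VV_isPr (x := x) (t := t) hp 0
  have e0 : H (VV p x t 0) (fullV x t) = 2 * hh p x t - ph p x t 0 := H_VV hp 0
  have e1 := H_le_add hV (fun ω => yy x t 2 ω.1) (fun ω => x ω.1 + 2 * k4w t ω) (fullV x t)
    (by
      intro c d hc hd' h
      obtain ⟨-, c2, c3⟩ := VV_supp hc
      obtain ⟨-, d2, d3⟩ := VV_supp hd'
      simp only [Prod.mk.injEq, yy, k4w, fullV, fl] at *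
      obtain ⟨a1, a2⟩ := h
      have t2 : t c.2 = t d.2 := by linarith
      have x2 := hd _ _ c2 d2 t2
      refine ⟨⟨?_, ?_⟩, ?_, ?_⟩ <;> linarith)
  have e2 := H_submod' hV (fun ω => (yy x t 1 ω.1, yy x t 2 ω.2))
    (fun ω => (yy x t 0 ω.1, k4w t ω)) (fun ω => x ω.1 + 2 * k4w t ω) (fullV x t)
    (by
      intro c d hc hd' h
      obtain ⟨-, -, c3⟩ := VV_supp hc
      obtain ⟨-, -, d3⟩ := VV_supp hd'
      simp only [Prod.mk.injEq, yy, k4w] at *
      linarith)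
    (by
      intro c d hc hd' h
      simp only [Prod.mk.injEq, yy, k4w] at *
      linarith)
    (by
      intro c d hc hd' h
      obtain ⟨-, -, c3⟩ := VV_supp hc
      obtain ⟨-, -, d3⟩ := VV_supp hd'
      simp only [Prod.mk.injEq, yy, k4w, fullV, fl] at *
      obtain ⟨⟨a1, a2⟩, a3, a4⟩ := h
      refine ⟨⟨?_, ?_⟩, ?_, ?_⟩ <;> linarith)
  have e3 := H_pair_le hV (fun ω => yy x t 1 ω.1) (fun ω => yy x t 2 ω.2)
  have e4 := H_pair_le hV (fun ω => yy x t 0 ω.1) (k4w t)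
  rw [k4_v1 hp, k4_v2 hp] at e3
  rw [k4_v1 hp] at e1 e4
  linarith

/-- **The slopes `0, 1, 2, 3`:** exponent `29/16`. -/
theorem k4_main (hp : IsPr p) (hd : Det p t x) {M : ℝ} (h0 : ph p x t 0 ≤ M)
    (h1 : ph p x t 1 ≤ M) (h2 : ph p x t 2 ≤ M) (h3 : ph p x t 3 ≤ M) :
    hh p x t ≤ 29 / 16 * M := by
  have e1 := k4_a hp hd h1 h2 h3
  have e2 := k4_b hp hd h0 h1 h2
  linarith

end main

end H73K
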