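import Pool.Agent.Lib.H51K.S2

/-!
# H73K/K7: five slopes `0, 2, 3, 4, 6` give the sums-differences exponent `17/10`
-/

namespace H73K

open Finset H51K

variable {Ω : Type} [Fintype Ω] {p : Ω → ℝ} {x t : Ω → ℚ}

/-! ### Entropies of the points of the four lines of `C4` -/

theorem k7_e1 (hp : IsPr p) (s a b r : ℚ) :
    H (CC p x t s a b) (fun ω => yy x t r ω.1.1) = ph p x t r := by
  have h1 : H (CC p x t s a b) (fun ω => (fun η : Ω × Ω => yy x t r η.1) ω.1)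
      = H (VV p x t s) (fun η : Ω × Ω => yy x t r η.1) :=
    H_glue_fst (VV_isPr hp s) (VV_isPr hp s) (fun _ => rfl) (fun η : Ω × Ω => yy x t r η.1)
  have h2 : H (VV p x t s) (fun η : Ω × Ω => yy x t r η.1) = ph p x t r :=
    H_glue_fst hp hp (fun _ => rfl) (yy x t r)
  rw [← h2, ← h1]

theorem k7_e2 (hp : IsPr p) (s a b r : ℚ) :
    H (CC p x t s a b) (fun ω => yy x t r ω.1.2) = ph p x t r := by
  have h1 : H (CC p x t s a b) (fun ω => (fun η : Ω × Ω => yy x t r η.2) ω.1)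
      = H (VV p x t s) (fun η : Ω × Ω => yy x t r η.2) :=
    H_glue_fst (VV_isPr hp s) (VV_isPr hp s) (fun _ => rfl) (fun η : Ω × Ω => yy x t r η.2)
  have h2 : H (VV p x t s) (fun η : Ω × Ω => yy x t r η.2) = ph p x t r :=
    H_glue_snd hp hp (fun _ => rfl) (yy x t r)
  rw [← h2, ← h1]

theorem k7_e3 (hp : IsPr p) (s a b r : ℚ) :
    H (CC p x t s a b) (fun ω => yy x t r ω.2.1) = ph p x t r := by
  have h1 : H (CC p x t s a b) (fun ω => (fun η : Ω × Ω => yy x t r η.1) ω.2)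
      = H (VV p x t s) (fun η : Ω × Ω => yy x t r η.1) :=
    H_glue_snd (VV_isPr hp s) (VV_isPr hp s) (fun _ => rfl) (fun η : Ω × Ω => yy x t r η.1)
  have h2 : H (VV p x t s) (fun η : Ω × Ω => yy x t r η.1) = ph p x t r :=
    H_glue_fst hp hp (fun _ => rfl) (yy x t r)
  rw [← h2, ← h1]

theorem k7_e4 (hp : IsPr p) (s a b r : ℚ) :
    H (CC p x t s a b) (fun ω => yy x t r ω.2.2) = ph p x t r := by
  have h1 : H (CC p x t s a b) (fun ω => (fun η : Ω × Ω => yy x t r η.2) ω.2)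
      = H (VV p x t s) (fun η : Ω × Ω => yy x t r η.2) :=
    H_glue_snd (VV_isPr hp s) (VV_isPr hp s) (fun _ => rfl) (fun η : Ω × Ω => yy x t r η.2)
  have h2 : H (VV p x t s) (fun η : Ω × Ω => yy x t r η.2) = ph p x t r :=
    H_glue_snd hp hp (fun _ => rfl) (yy x t r)
  rw [← h2, ← h1]

/-- The full variable of `C4`. -/
def full (x t : Ω → ℚ) : (Ω × Ω) × (Ω × Ω) → ((ℚ × ℚ) × (ℚ × ℚ)) × ((ℚ × ℚ) × (ℚ × ℚ)) :=
  fun ω => ((fl x t ω.1.1, fl x t ω.1.2), (fl x t ω.2.1, fl x t ω.2.2))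

/-- `w = P - 2 P'` on `C4`. -/
def k7w (x t : Ω → ℚ) : (Ω × Ω) × (Ω × Ω) → ℚ :=
  fun ω => yy x t 2 ω.1.1 - 2 * yy x t 2 ω.1.2

/-- `z = 4 y_3(line 1) + 6 t(line 4)` on `C4`. -/
def k7z (x t : Ω → ℚ) : (Ω × Ω) × (Ω × Ω) → ℚ :=
  fun ω => 4 * yy x t 3 ω.1.1 + 6 * t ω.2.2

/-- First inequality: `v ≤ H(w) + φ(4)`. -/
theorem k7_a (hp : IsPr p) (hd : Det p t x) :
    2 * hh p x t - ph p x t 0 ≤ H (CC p x t 0 2 2) (k7w x t) + ph p x t 4 := by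
  have hV := VV_isPr (x := x) (t := t) hp 0
  have h1 : H (CC p x t 0 2 2) (k7w x t)
      = H (VV p x t 0) (fun η => yy x t 2 η.1 - 2 * yy x t 2 η.2) :=
    H_glue_fst hV hV (fun _ => rfl) (fun η : Ω × Ω => yy x t 2 η.1 - 2 * yy x t 2 η.2)
  have h2 : H (VV p x t 0) (fun η => yy x t 4 η.2) = ph p x t 4 :=
    H_glue_snd hp hp (fun _ => rfl) (yy x t 4)
  rw [← H_VV hp 0, h1, ← h2]
  refine H_le_add hV _ _ _ ?_
  intro c d hc hd' h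
  obtain ⟨c1, c2, c3⟩ := VV_supp hc
  obtain ⟨d1, d2, d3⟩ := VV_supp hd'
  simp only [Prod.mk.injEq, yy, fl] at *
  obtain ⟨h3, h4⟩ := h
  have t1 : t c.1 = t d.1 := by linarith
  have x1 := hd _ _ c1 d1 t1
  have x2 : x c.2 = x d.2 := by linarith
  have t2 : t c.2 = t d.2 := by linarith
  exact ⟨⟨x1, t1⟩, x2, t2⟩

/-- The pairs over `w`. -/
theorem k7_b (hp : IsPr p) :
    H (CC p x t 0 2 2) (fun ω => ((yy x t 6 ω.1.1, yy x t 3 ω.1.2),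
      (yy x t 6 ω.2.1, yy x t 3 ω.2.2))) + H (CC p x t 0 2 2) (k7w x t)
      ≤ 2 * (ph p x t 6 + ph p x t 3) := by
  have hC := CC_isPr (x := x) (t := t) hp 0 2 2
  have h1 := H_submod' hC (fun ω => (yy x t 6 ω.1.1, yy x t 3 ω.1.2))
    (fun ω => (yy x t 6 ω.2.1, yy x t 3 ω.2.2)) (k7w x t)
    (fun ω => ((yy x t 6 ω.1.1, yy x t 3 ω.1.2), (yy x t 6 ω.2.1, yy x t 3 ω.2.2)))
    (by
      intro c d hc hd' h
      obtain ⟨-, c1, c2, c3, c4⟩ := CC_supp hc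
      obtain ⟨-, d1, d2, d3, d4⟩ := CC_supp hd'
      simp only [Prod.mk.injEq, yy, k7w] at *
      linarith)
    (by
      intro c d hc hd' h
      obtain ⟨-, c1, c2, c3, c4⟩ := CC_supp hc
      obtain ⟨-, d1, d2, d3, d4⟩ := CC_supp hd'
      simp only [Prod.mk.injEq, yy, k7w] at *
      linarith)
    (fun _ _ _ _ h => h)
  have h2 := H_pair_le hC (fun ω => yy x t 6 ω.1.1) (fun ω => yy x t 3 ω.1.2)
  have h3 := H_pair_le hC (fun ω => yy x t 6 ω.2.1) (fun ω => yy x t 3 ω.2.2)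
  rw [k7_e1 hp, k7_e2 hp] at h2
  rw [k7_e3 hp, k7_e4 hp] at h3
  linarith

/-- `A = (line 4, y_3(line 1))`: `H(A) ≤ H(z) + φ(3)`. -/
theorem k7_c (hp : IsPr p) (hd : Det p t x) :
    H (CC p x t 0 2 2) (fun ω => (fl x t ω.2.2, yy x t 3 ω.1.1))
      ≤ H (CC p x t 0 2 2) (k7z x t) + ph p x t 3 := by
  have hC := CC_isPr (x := x) (t := t) hp 0 2 2
  rw [← k7_e1 hp 0 2 2 3]
  refine H_le_add hC _ _ _ ?_
  intro c d hc hd' h
  obtain ⟨⟨-, -, -, c4⟩, -⟩ := CC_supp hc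
  obtain ⟨⟨-, -, -, d4⟩, -⟩ := CC_supp hd'
  simp only [Prod.mk.injEq, yy, k7z, fl] at *
  obtain ⟨h1, h2⟩ := h
  have t4 : t c.2.2 = t d.2.2 := by linarith
  exact ⟨⟨hd _ _ c4 d4 t4, t4⟩, h2⟩

/-- `H(W) + H(z, y_3(line 4)) ≤ H(Π) + H(A)`. -/
theorem k7_d (hp : IsPr p) :
    H (CC p x t 0 2 2) (full x t) + H (CC p x t 0 2 2) (fun ω => (k7z x t ω, yy x t 3 ω.2.2))
      ≤ H (CC p x t 0 2 2) (fun ω => ((yy x t 6 ω.1.1, yy x t 3 ω.1.2),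
          (yy x t 6 ω.2.1, yy x t 3 ω.2.2)))
        + H (CC p x t 0 2 2) (fun ω => (fl x t ω.2.2, yy x t 3 ω.1.1)) := by
  have hC := CC_isPr (x := x) (t := t) hp 0 2 2
  refine H_submod' hC _ _ _ _ ?_ ?_ ?_
  · intro c d hc hd' h
    obtain ⟨-, c1, c2, c3, c4⟩ := CC_supp hc
    obtain ⟨-, d1, d2, d3, d4⟩ := CC_supp hd'
    simp only [Prod.mk.injEq, yy, k7z] at *
    constructor <;> linarith
  · intro c d hc hd' h
    obtain ⟨-, c1, c2, c3, c4⟩ := CC_supp hc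
    obtain ⟨-, d1, d2, d3, d4⟩ := CC_supp hd'
    simp only [Prod.mk.injEq, yy, k7z, fl] at *
    constructor <;> linarith
  · intro c d hc hd' h
    obtain ⟨-, c1, c2, c3, c4⟩ := CC_supp hc
    obtain ⟨-, d1, d2, d3, d4⟩ := CC_supp hd'
    simp only [Prod.mk.injEq, yy, fl, full] at *
    obtain ⟨⟨⟨a1, a2⟩, a3, a4⟩, ⟨a5, a6⟩, a7⟩ := h
    refine ⟨⟨⟨?_, ?_⟩, ?_, ?_⟩, ⟨?_, ?_⟩, ?_, ?_⟩ <;> linarith

/-- `H(W) + H(z) ≤ H(z, y_3(line 4)) + H(y_6(line 2), y_4(line 3))`. -/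
theorem k7_f (hp : IsPr p) (hd : Det p t x) :
    H (CC p x t 0 2 2) (full x t) + H (CC p x t 0 2 2) (k7z x t)
      ≤ H (CC p x t 0 2 2) (fun ω => (k7z x t ω, yy x t 3 ω.2.2))
        + H (CC p x t 0 2 2) (fun ω => (yy x t 6 ω.1.2, yy x t 4 ω.2.1)) := by
  have hC := CC_isPr (x := x) (t := t) hp 0 2 2
  refine H_submod' hC _ _ _ _ ?_ ?_ ?_
  · intro c d _ _ h
    exact congrArg Prod.fst h
  · intro c d hc hd' h
    obtain ⟨-, c1, c2, c3, c4⟩ := CC_supp hc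
    obtain ⟨-, d1, d2, d3, d4⟩ := CC_supp hd'
    simp only [Prod.mk.injEq, yy, k7z] at *
    linarith
  · intro c d hc hd' h
    obtain ⟨⟨c5, -, -, -⟩, c1, c2, c3, c4⟩ := CC_supp hc
    obtain ⟨⟨d5, -, -, -⟩, d1, d2, d3, d4⟩ := CC_supp hd'
    simp only [Prod.mk.injEq, yy, fl, full, k7z] at *
    obtain ⟨⟨a1, a2⟩, a3, a4⟩ := h
    have t1 : t c.1.1 = t d.1.1 := by linarith
    have x1 := hd _ _ c5 d5 t1
    refine ⟨⟨⟨?_, ?_⟩, ?_, ?_⟩, ⟨?_, ?_⟩, ?_, ?_⟩ <;> linarith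

/-- **The slopes `0, 2, 3, 4, 6`:** exponent `17/10`. -/
theorem k7_main (hp : IsPr p) (hd : Det p t x) {M : ℝ} (h0 : ph p x t 0 ≤ M)
    (h2 : ph p x t 2 ≤ M) (h3 : ph p x t 3 ≤ M) (h4 : ph p x t 4 ≤ M) (h6 : ph p x t 6 ≤ M) :
    hh p x t ≤ 17 / 10 * M := by
  have hC := CC_isPr (x := x) (t := t) hp 0 2 2
  have e1 := k7_a hp hd
  have e2 := k7_b (x := x) (t := t) hp
  have e3 := k7_c hp hd
  have e4 := k7_d (x := x) (t := t) hp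
  have e5 := k7_f hp hd
  have e6 := H_CC (x := x) (t := t) hp 0 2 2
  have e7 := BB_le_ph (x := x) (t := t) hp 0 2 2
  have e8 := H_pair_le hC (fun ω => yy x t 6 ω.1.2) (fun ω => yy x t 4 ω.2.1)
  rw [k7_e2 hp, k7_e3 hp] at e8
  rw [zero_add] at e7
  have e9 : H (CC p x t 0 2 2) (full x t) = 4 * hh p x t - 2 * ph p x t 0 - BB p x t 0 2 2 := e6
  linarith

end H73K
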