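import Pool.Agent.Lib.H51K.Final
import Pool.Agent.Lib.H73K.K7
import Pool.Agent.Lib.H73K.K4

/-!
# H73K/Fin: lower bounds for `m(N, k)` for every length `k ≥ 3`
-/

namespace H73K

open Finset H51K Pool.Agent.Lib.H21AP Pool.Agent.Lib.H38K

/-- From an entropy inequality for the slopes `0, ..., k₀ - 1` to `m(N, k₀)`. -/
theorem fin_app {α : ℝ} {k₀ : ℕ} (h₀ : 1 ≤ k₀)
    (h : ∀ (Ω : Type) [Fintype Ω] (p : Ω → ℝ) (x t : Ω → ℚ) (M : ℝ), IsPr p → Det p t x →
      (∀ j : ℕ, j < k₀ → ph p x t j ≤ M) → hh p x t ≤ α * M) (N : ℕ) (hN : 1 ≤ N) :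
    (N : ℝ) ≤ (minCard N k₀ : ℝ) ^ α := by
  classical
  obtain ⟨A, hA, hAc⟩ := exists_minCard N k₀
  rw [← hAc]
  choose! a ha using hA
  obtain ⟨G, hG⟩ : ∃ G : Finset ℕ, G = Icc 1 N := ⟨_, rfl⟩
  have hmem : ∀ d ∈ G, ∀ j < k₀, a d + j * d ∈ A := by
    intro d hd j hj
    rw [hG, mem_Icc] at hd
    exact ha d hd.1 hd.2 j hj
  have hne : G.Nonempty := by
    rw [hG]
    exact ⟨1, by simp [hN]⟩
  have hnG : Nonempty G := ⟨⟨hne.choose, hne.choose_spec⟩⟩
  have hp : IsPr (fun _ : G => 1 / (Fintype.card G : ℝ)) := unif_isPr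
  have hdet : Det (fun _ : G => 1 / (Fintype.card G : ℝ)) (fun g : G => (g.1 : ℚ))
      (fun g : G => (a g.1 : ℚ)) := by
    intro g g' _ _ he
    have h1 : g.1 = g'.1 := by
      have h2 : (g.1 : ℚ) = (g'.1 : ℚ) := he
      exact_mod_cast h2
    have h3 : g = g' := Subtype.ext h1
    rw [h3]
  have hinj : Function.Injective (fun g : G => ((a g.1 : ℚ), (g.1 : ℚ))) := by
    intro g g' he
    have h1 : (g.1 : ℚ) = (g'.1 : ℚ) := congrArg Prod.snd he
    exact Subtype.ext (by exact_mod_cast h1)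
  have h1 := h G (fun _ : G => 1 / (Fintype.card G : ℝ)) (fun g : G => (a g.1 : ℚ))
    (fun g : G => (g.1 : ℚ)) (Real.log (A.card : ℝ)) hp hdet (by
      intro j hj
      have h2 := H_le_log hp (yy (fun g : G => (a g.1 : ℚ)) (fun g : G => (g.1 : ℚ)) j)
        (A.image (fun n : ℕ => (n : ℚ))) (by
          intro g _
          refine mem_image.2 ⟨a g.1 + j * g.1, hmem g.1 g.2 j hj, ?_⟩
          simp only [yy]
          push_cast
          ring)
      rwa [card_image_of_injective _ Nat.cast_injective] at h2)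
  have h2 : hh (fun _ : G => 1 / (Fintype.card G : ℝ)) (fun g : G => (a g.1 : ℚ))
      (fun g : G => (g.1 : ℚ)) = Real.log (N : ℝ) := by
    rw [hh, H_unif _ hinj, Fintype.card_coe, hG, Nat.card_Icc, Nat.add_sub_cancel]
  rw [h2] at h1
  have hA0 : (0 : ℝ) < A.card := by
    obtain ⟨d, hd⟩ := hne
    exact_mod_cast card_pos.2 ⟨_, hmem d hd 0 h₀⟩
  have hN0 : (0 : ℝ) < N := by exact_mod_cast hN
  rw [Real.rpow_def_of_pos hA0, ← Real.log_le_iff_le_exp hN0]
  linarith

/-- Three slopes. -/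
theorem fin_three {Ω : Type} [Fintype Ω] {p : Ω → ℝ} {x t : Ω → ℚ} {M : ℝ} (hp : IsPr p)
    (hd : Det p t x) (h0 : ph p x t 0 ≤ M) (h1 : ph p x t 1 ≤ M) (h2 : ph p x t 2 ≤ M) :
    hh p x t ≤ 11 / 6 * M := by
  obtain ⟨x', hx⟩ : ∃ x' : Ω → ℚ, x' = fun ω => x ω - t ω := ⟨_, rfl⟩
  have hd' : Det p t x' := by
    intro c d hc hd' he
    have h3 := hd c d hc hd' he
    simp only [hx]
    rw [h3, he]
  have e := k4_three (x := x') hp hd'
  have e0 : hh p x t ≤ hh p x' t := by
    refine H_le_of_det hp ?_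
    intro c d _ _ he
    simp only [hx, Prod.mk.injEq] at he ⊢
    obtain ⟨a1, a2⟩ := he
    exact ⟨by linarith, a2⟩
  have e1 : ph p x' t 1 = ph p x t 0 := by
    rw [ph, ph]
    congr 1
    funext ω
    simp only [yy, hx]
    ring
  have e2 : ph p x' t 2 = ph p x t 1 := by
    rw [ph, ph]
    congr 1
    funext ω
    simp only [yy, hx]
    ring
  have e3 : ph p x' t 3 = ph p x t 2 := by
    rw [ph, ph]
    congr 1
    funext ω
    simp only [yy, hx]
    ring
  rw [e1, e2, e3] at e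
  linarith

theorem fin_g3 : (6 : ℝ) / 11 ≤ growthExp 3 := by
  have h := final_exp (θ := 11 / 6) (k₀ := 3) (by norm_num) (by norm_num)
    (fin_app (by norm_num) (by
      intro Ω _ p x t M hp hd h
      have h0 := h 0 (by norm_num)
      have h1 := h 1 (by norm_num)
      have h2 := h 2 (by norm_num)
      simp only [Nat.cast_zero, Nat.cast_one, Nat.cast_ofNat] at h0 h1 h2
      exact fin_three hp hd h0 h1 h2))
  norm_num at h ⊢
  linarith

theorem fin_g4 : (16 : ℝ) / 29 ≤ growthExp 4 := by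
  have h := final_exp (θ := 29 / 16) (k₀ := 4) (by norm_num) (by norm_num)
    (fin_app (by norm_num) (by
      intro Ω _ p x t M hp hd h
      have h0 := h 0 (by norm_num)
      have h1 := h 1 (by norm_num)
      have h2 := h 2 (by norm_num)
      have h3 := h 3 (by norm_num)
      simp only [Nat.cast_zero, Nat.cast_one, Nat.cast_ofNat] at h0 h1 h2 h3
      exact k4_main hp hd h0 h1 h2 h3))
  norm_num at h ⊢
  linarith

theorem fin_g7 : (10 : ℝ) / 17 ≤ growthExp 7 := by
  have h := final_exp (θ := 17 / 10) (k₀ := 7) (by norm_num) (by norm_num)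
    (fin_app (by norm_num) (by
      intro Ω _ p x t M hp hd h
      have h0 := h 0 (by norm_num)
      have h2 := h 2 (by norm_num)
      have h3 := h 3 (by norm_num)
      have h4 := h 4 (by norm_num)
      have h6 := h 6 (by norm_num)
      simp only [Nat.cast_zero, Nat.cast_ofNat] at h0 h2 h3 h4 h6
      exact k7_main hp hd h0 h2 h3 h4 h6))
  norm_num at h ⊢
  linarith

end H73K
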